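import Mathlib

/-!
# Linear pencils without complex eigenvectors

If `a + t b` is injective for all complex `t`, and `b` is injective, and `w0 + t w1` lies in the
range of `a + t b` for infinitely many `t`, then `w0 = a c`, `w1 = b c` for a constant vector `c`.
-/

set_option autoImplicit false
set_option linter.unusedSectionVars false

open Polynomial Matrix

namespace TrI

namespace CH2Alg

variable {N : ℕ} {ι : Type} [Fintype ι] [DecidableEq ι]

/-- the pencil as a polynomial matrix -/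
noncomputable def pen (a b : Matrix (Fin N) ι ℂ) : Matrix (Fin N) ι ℂ[X] :=
  Matrix.of fun i j => C (a i j) + X * C (b i j)

/-- a linear polynomial vector -/
noncomputable def lin (w0 w1 : Fin N → ℂ) : Fin N → ℂ[X] :=
  fun i => C (w0 i) + X * C (w1 i)

theorem eval_pen (a b : Matrix (Fin N) ι ℂ) (P : ι → ℂ[X]) (t : ℂ) (i : Fin N) :
    (((pen a b) *ᵥ P) i).eval t = ((a + t • b) *ᵥ (fun j => (P j).eval t)) i := by
  simp only [Matrix.mulVec, dotProduct, pen, Matrix.of_apply, eval_finsetSum, eval_mul, eval_add,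
    eval_C, eval_X, Matrix.add_apply, Matrix.smul_apply, smul_eq_mul]

theorem eval_lin (w0 w1 : Fin N → ℂ) (t : ℂ) (i : Fin N) :
    (lin w0 w1 i).eval t = (w0 + t • w1) i := by
  simp only [lin, eval_add, eval_mul, eval_C, eval_X, Pi.add_apply, Pi.smul_apply, smul_eq_mul]

/-- existence of a polynomial relation -/
theorem exists_rel (a b : Matrix (Fin N) ι ℂ)
    (h : ∀ t : ℂ, ∀ c : ι → ℂ, (a + t • b) *ᵥ c = 0 → c = 0)
    (w0 w1 : Fin N → ℂ) (S : Set ℂ) (hS : S.Infinite)
    (hw : ∀ t ∈ S, ∃ c : ι → ℂ, w0 + t • w1 = (a + t • b) *ᵥ c) :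
    ∃ (Q : ℂ[X]) (P : ι → ℂ[X]), Q ≠ 0 ∧ Q • lin w0 w1 = (pen a b) *ᵥ P := by
  -- left inverse at `t = 0`
  have hinj : Function.Injective (Matrix.mulVecLin a) := by
    rw [← LinearMap.ker_eq_bot, LinearMap.ker_eq_bot']
    intro v hv
    refine h 0 v ?_
    rw [zero_smul, add_zero]
    exact hv
  obtain ⟨g, hg⟩ := (Matrix.mulVecLin a).exists_leftInverse_of_injective
    (LinearMap.ker_eq_bot.mpr hinj)
  obtain ⟨B0, hB0⟩ : ∃ B0 : Matrix ι (Fin N) ℂ, B0 = LinearMap.toMatrix' g := ⟨_, rfl⟩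
  have hBM : B0 * a = 1 := by
    have h1 : LinearMap.toMatrix' (g ∘ₗ Matrix.mulVecLin a) = 1 := by
      rw [hg, LinearMap.toMatrix'_id]
    rw [LinearMap.toMatrix'_comp] at h1
    have h2 : LinearMap.toMatrix' (Matrix.mulVecLin a) = a := by
      have := LinearMap.toMatrix'_toLin' a
      rwa [Matrix.toLin'_apply'] at this
    rw [h2] at h1
    rw [hB0]; exact h1
  obtain ⟨CB, hCB⟩ : ∃ CB : Matrix ι (Fin N) ℂ[X], ∀ i j, CB i j = C (B0 i j) :=
    ⟨Matrix.of fun i j => C (B0 i j), fun _ _ => rfl⟩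
  obtain ⟨A, hA⟩ : ∃ A : Matrix ι ι ℂ[X], A = CB * pen a b := ⟨_, rfl⟩
  have hAev : ∀ t : ℂ, A.map (eval t) = B0 * (a + t • b) := by
    intro t
    ext i j
    rw [hA]
    simp only [Matrix.map_apply, Matrix.mul_apply, pen, Matrix.of_apply, hCB, eval_finsetSum,
      eval_mul, eval_add, eval_C, eval_X, Matrix.add_apply, Matrix.smul_apply, smul_eq_mul]
  have hdet : ∀ t : ℂ, A.det.eval t = (B0 * (a + t • b)).det := by
    intro t
    rw [← hAev t]
    have := RingHom.map_det (evalRingHom t) A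
    rw [coe_evalRingHom] at this
    rw [this]
    rfl
  refine ⟨A.det, A.adjugate *ᵥ (CB *ᵥ lin w0 w1), ?_, ?_⟩
  · intro h0
    have h1 := hdet 0
    rw [h0, zero_smul, add_zero, hBM, Matrix.det_one, eval_zero] at h1
    exact zero_ne_one h1
  · funext i
    refine Polynomial.eq_of_infinite_eval_eq _ _ (hS.mono ?_)
    intro t ht
    obtain ⟨c, hc⟩ := hw t ht
    change eval t ((A.det • lin w0 w1) i) = eval t ((pen a b *ᵥ (A.adjugate *ᵥ (CB *ᵥ lin w0 w1))) i)
    rw [eval_pen]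
    have h1 : (fun j => eval t ((A.adjugate *ᵥ (CB *ᵥ lin w0 w1)) j)) =
        (A.det.eval t) • c := by
      have h2 : (fun j => eval t ((A.adjugate *ᵥ (CB *ᵥ lin w0 w1)) j)) =
          (A.adjugate.map (eval t)) *ᵥ (B0 *ᵥ (w0 + t • w1)) := by
        funext j
        simp only [Matrix.mulVec, dotProduct, eval_finsetSum, eval_mul, Matrix.map_apply, hCB,
          eval_C, eval_lin]
      have h3 : A.adjugate.map (eval t) = (B0 * (a + t • b)).adjugate := by
        rw [← hAev t]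
        have := RingHom.map_adjugate (evalRingHom t) A
        exact this
      rw [h2, hc, h3, hdet, Matrix.mulVec_mulVec, Matrix.mulVec_mulVec,
        Matrix.mul_assoc, Matrix.adjugate_mul, Matrix.smul_mulVec, Matrix.one_mulVec]
    rw [h1, Matrix.mulVec_smul, ← hc]
    simp only [Pi.smul_apply, smul_eq_mul, eval_mul, eval_lin]

theorem main (a b : Matrix (Fin N) ι ℂ)
    (h : ∀ t : ℂ, ∀ c : ι → ℂ, (a + t • b) *ᵥ c = 0 → c = 0)
    (hinf : ∀ c : ι → ℂ, b *ᵥ c = 0 → c = 0)
    (w0 w1 : Fin N → ℂ) (S : Set ℂ) (hS : S.Infinite)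
    (hw : ∀ t ∈ S, ∃ c : ι → ℂ, w0 + t • w1 = (a + t • b) *ᵥ c) :
    ∃ c : ι → ℂ, w0 = a *ᵥ c ∧ w1 = b *ᵥ c := by
  classical
  have hex : ∃ n : ℕ, ∃ (Q : ℂ[X]) (P : ι → ℂ[X]), Q.natDegree = n ∧ Q ≠ 0 ∧
      Q • lin w0 w1 = (pen a b) *ᵥ P := by
    obtain ⟨Q, P, hQ, hQP⟩ := exists_rel a b h w0 w1 S hS hw
    exact ⟨Q.natDegree, Q, P, rfl, hQ, hQP⟩
  obtain ⟨Q, P, hn, hQ, hQP⟩ := Nat.find_spec hex
  -- `Q` is constant
  have hdeg : Q.natDegree = 0 := by
    by_contra hne
    have hd : Q.degree ≠ 0 := by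
      intro h0
      exact hne (natDegree_eq_of_degree_eq_some h0)
    obtain ⟨t0, ht0⟩ := IsAlgClosed.exists_root Q hd
    have hP0 : ∀ j, (P j).IsRoot t0 := by
      have h1 : (a + t0 • b) *ᵥ (fun j => (P j).eval t0) = 0 := by
        funext i
        rw [← eval_pen, ← hQP]
        have h2 : Q.eval t0 = 0 := ht0
        simp [h2]
      intro j
      exact congrFun (h t0 _ h1) j
    obtain ⟨Q', hQ'⟩ := dvd_iff_isRoot.mpr ht0
    choose P' hP' using fun j => dvd_iff_isRoot.mpr (hP0 j)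
    have hX : (X - C t0 : ℂ[X]) ≠ 0 := X_sub_C_ne_zero t0
    have hQ'0 : Q' ≠ 0 := by
      rintro rfl
      exact hQ (by rw [hQ', mul_zero])
    have hrel : Q' • lin w0 w1 = (pen a b) *ᵥ P' := by
      have h1 : (X - C t0 : ℂ[X]) • (Q' • lin w0 w1) = (X - C t0 : ℂ[X]) • ((pen a b) *ᵥ P') := by
        rw [smul_smul, ← hQ', hQP, ← Matrix.mulVec_smul]
        congr 1
        funext j
        rw [hP' j]
        rfl
      funext i
      have h2 := congrFun h1 i
      simp only [Pi.smul_apply, smul_eq_mul] at h2 ⊢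
      exact mul_left_cancel₀ hX h2
    have hlt : Q'.natDegree < Q.natDegree := by
      rw [hQ', natDegree_mul hX hQ'0, natDegree_X_sub_C]
      omega
    rw [hn] at hlt
    exact Nat.find_min hex hlt ⟨Q', P', rfl, hQ'0, hrel⟩
  obtain ⟨q, hq⟩ := natDegree_eq_zero.mp hdeg
  have hq0 : q ≠ 0 := by
    rintro rfl
    exact hQ (by rw [← hq, C_0])
  -- coefficients of the relation
  have hcoef : ∀ (n : ℕ) (i : Fin N), ((pen a b *ᵥ P) i).coeff (n + 1) =
      (a *ᵥ (fun j => (P j).coeff (n + 1))) i + (b *ᵥ (fun j => (P j).coeff n)) i := by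
    intro n i
    simp only [Matrix.mulVec, dotProduct, pen, Matrix.of_apply, finsetSum_coeff]
    rw [← Finset.sum_add_distrib]
    refine Finset.sum_congr rfl fun j _ => ?_
    rw [add_mul, coeff_add, coeff_C_mul, mul_assoc, coeff_X_mul, coeff_C_mul]
  have hcoef0 : ∀ (i : Fin N), ((pen a b *ᵥ P) i).coeff 0 =
      (a *ᵥ (fun j => (P j).coeff 0)) i := by
    intro i
    simp only [Matrix.mulVec, dotProduct, pen, Matrix.of_apply, finsetSum_coeff]
    refine Finset.sum_congr rfl fun j _ => ?_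
    rw [add_mul, coeff_add, coeff_C_mul, mul_assoc, coeff_X_mul_zero, add_zero]
  have hl0 : ∀ i, ((Q • lin w0 w1) i).coeff 0 = q * w0 i := by
    intro i
    rw [← hq]
    simp [lin]
  have hl1 : ∀ i, ((Q • lin w0 w1) i).coeff 1 = q * w1 i := by
    intro i
    rw [← hq]
    simp [lin, coeff_C]
  have hl2 : ∀ n i, ((Q • lin w0 w1) i).coeff (n + 2) = 0 := by
    intro n i
    rw [← hq]
    simp [lin]
  -- high coefficients of `P` vanish
  have hPz : ∀ n : ℕ, 1 ≤ n → ∀ j, (P j).coeff n = 0 := by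
    -- descending induction from a common degree bound
    obtain ⟨D, hD⟩ : ∃ D : ℕ, ∀ j, ∀ n, D ≤ n → (P j).coeff n = 0 := by
      refine ⟨Finset.univ.sup (fun j => (P j).natDegree) + 1, fun j n hn => ?_⟩
      refine coeff_eq_zero_of_natDegree_lt ?_
      have := Finset.le_sup (f := fun j => (P j).natDegree) (Finset.mem_univ j)
      omega
    have key : ∀ m : ℕ, ∀ n : ℕ, 1 ≤ n → D ≤ n + m → ∀ j, (P j).coeff n = 0 := by
      intro m
      induction m with
      | zero => intro n _ hn j; exact hD j n hn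
      | succ m ih =>
        intro n hn1 hn
        have h1 : ∀ j, (P j).coeff (n + 1) = 0 := ih (n + 1) (by omega) (by omega)
        have h2 : b *ᵥ (fun j => (P j).coeff n) = 0 := by
          funext i
          obtain ⟨n', rfl⟩ := Nat.exists_eq_add_of_le' hn1
          have h3 := hcoef (n' + 1) i
          rw [← hQP, hl2 n' i] at h3
          have h4 : (fun j => (P j).coeff (n' + 1 + 1)) = 0 := funext h1
          rw [h4, Matrix.mulVec_zero, Pi.zero_apply, zero_add] at h3
          exact h3.symm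
        intro j
        exact congrFun (hinf _ h2) j
    intro n hn
    exact key D n hn (by omega)
  refine ⟨q⁻¹ • fun j => (P j).coeff 0, ?_, ?_⟩
  · funext i
    have h1 := hcoef0 i
    rw [← hQP, hl0 i] at h1
    rw [Matrix.mulVec_smul, Pi.smul_apply, ← h1, smul_eq_mul]
    field_simp
  · funext i
    have h1 := hcoef 0 i
    rw [← hQP, zero_add, hl1 i] at h1
    have h4 : (fun j => (P j).coeff 1) = 0 := funext fun j => hPz 1 le_rfl j
    rw [h4, Matrix.mulVec_zero, Pi.zero_apply, zero_add] at h1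
    rw [Matrix.mulVec_smul, Pi.smul_apply, ← h1, smul_eq_mul]
    field_simp

end CH2Alg

end TrI
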