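import Mathlib

/-!
# The Nullstellensatz step for C-elliptic symbols

If the real matrix pencil `S(X) = ∑ X_j A_j` is injective at every nonzero complex point, then all
monomials of some degree `k` are of the form `B S` with `B` homogeneous of degree `k - 1`.
-/

set_option autoImplicit false

open MvPolynomial Matrix

namespace TrI

namespace NSAlg

variable {d N K : ℕ}

/-- the symbol of a first order operator -/
noncomputable def symb {R : Type} [CommRing R] (A : Fin d → Matrix (Fin K) (Fin N) R) :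
    Matrix (Fin K) (Fin N) (MvPolynomial (Fin d) R) :=
  Matrix.of fun i j => ∑ l, MvPolynomial.C (A l i j) * X l

/-- the real part of a complex polynomial -/
noncomputable def rep (p : MvPolynomial (Fin d) ℂ) : MvPolynomial (Fin d) ℝ :=
  ∑ m ∈ p.support, monomial m (coeff m p).re

theorem coeff_rep (p : MvPolynomial (Fin d) ℂ) (m : Fin d →₀ ℕ) :
    coeff m (rep p) = (coeff m p).re := by
  classical
  unfold rep
  rw [coeff_sum]
  simp only [coeff_monomial]
  rw [Finset.sum_ite_eq' p.support m]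
  split_ifs with h
  · rfl
  · rw [notMem_support_iff.mp h]; simp

theorem rep_add (p q : MvPolynomial (Fin d) ℂ) : rep (p + q) = rep p + rep q := by
  ext m
  simp [coeff_rep]

theorem rep_zero : rep (0 : MvPolynomial (Fin d) ℂ) = 0 := by
  ext m
  simp [coeff_rep]

theorem rep_sum {ι : Type*} (s : Finset ι) (f : ι → MvPolynomial (Fin d) ℂ) :
    rep (∑ i ∈ s, f i) = ∑ i ∈ s, rep (f i) := by
  classical
  induction s using Finset.induction_on with
  | empty => simp [rep_zero]
  | insert i s hi ih => rw [Finset.sum_insert hi, Finset.sum_insert hi, rep_add, ih]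

theorem rep_mul_map (p : MvPolynomial (Fin d) ℂ) (q : MvPolynomial (Fin d) ℝ) :
    rep (p * MvPolynomial.map (algebraMap ℝ ℂ) q) = rep p * q := by
  classical
  ext m
  rw [coeff_rep, coeff_mul, coeff_mul, Complex.re_sum]
  refine Finset.sum_congr rfl fun x _ => ?_
  rw [coeff_map, coeff_rep]
  simp

theorem rep_map (q : MvPolynomial (Fin d) ℝ) :
    rep (MvPolynomial.map (algebraMap ℝ ℂ) q) = q := by
  ext m
  rw [coeff_rep, coeff_map]
  simp

/-- the ideal of multipliers -/
noncomputable def mulIdeal {P : Type} [CommRing P] (S : Matrix (Fin K) (Fin N) P) : Ideal P where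
  carrier := {p | ∃ B : Matrix (Fin N) (Fin K) P, B * S = p • 1}
  add_mem' := by
    rintro p q ⟨B, hB⟩ ⟨B', hB'⟩
    exact ⟨B + B', by rw [Matrix.add_mul, hB, hB', add_smul]⟩
  zero_mem' := ⟨0, by simp⟩
  smul_mem' := by
    rintro c p ⟨B, hB⟩
    exact ⟨c • B, by rw [Matrix.smul_mul, hB, smul_smul]; rfl⟩

theorem mem_mulIdeal {P : Type} [CommRing P] (S : Matrix (Fin K) (Fin N) P) (p : P) :
    p ∈ mulIdeal S ↔ ∃ B : Matrix (Fin N) (Fin K) P, B * S = p • 1 := Iff.rfl

theorem complex_power (A : Fin d → Matrix (Fin K) (Fin N) ℂ)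
    (hA : ∀ ξ : Fin d → ℂ, ξ ≠ 0 → ∀ v : Fin N → ℂ, (∑ j, ξ j • A j) *ᵥ v = 0 → v = 0)
    (j : Fin d) : ∃ m : ℕ, (X j : MvPolynomial (Fin d) ℂ) ^ m ∈ mulIdeal (symb A) := by
  have hz : ∀ x ∈ zeroLocus ℂ (mulIdeal (symb A)), x = 0 := by
    intro x hx
    by_contra hx0
    set M : Matrix (Fin K) (Fin N) ℂ := ∑ j, x j • A j with hM
    have hinj : Function.Injective (Matrix.mulVecLin M) := by
      rw [← LinearMap.ker_eq_bot, LinearMap.ker_eq_bot']
      intro v hv
      exact hA x hx0 v hv
    obtain ⟨g, hg⟩ := (Matrix.mulVecLin M).exists_leftInverse_of_injective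
      (LinearMap.ker_eq_bot.mpr hinj)
    set B0 : Matrix (Fin N) (Fin K) ℂ := LinearMap.toMatrix' g with hB0
    have hBM : B0 * M = 1 := by
      have h1 : LinearMap.toMatrix' (g ∘ₗ Matrix.mulVecLin M) = 1 := by
        rw [hg, LinearMap.toMatrix'_id]
      rw [LinearMap.toMatrix'_comp] at h1
      have h2 : LinearMap.toMatrix' (Matrix.mulVecLin M) = M := by
        have := LinearMap.toMatrix'_toLin' M
        rwa [Matrix.toLin'_apply'] at this
      rwa [h2] at h1
    obtain ⟨CB, hCB⟩ : ∃ CB : Matrix (Fin N) (Fin K) (MvPolynomial (Fin d) ℂ),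
        ∀ a b, CB a b = MvPolynomial.C (B0 a b) := ⟨Matrix.of fun a b => MvPolynomial.C (B0 a b),
          fun _ _ => rfl⟩
    obtain ⟨P, hP⟩ : ∃ P : Matrix (Fin N) (Fin N) (MvPolynomial (Fin d) ℂ), P = CB * symb A :=
      ⟨_, rfl⟩
    have hmem : P.det ∈ mulIdeal (symb A) := by
      refine ⟨P.adjugate * CB, ?_⟩
      rw [Matrix.mul_assoc, ← hP, Matrix.adjugate_mul]
    have h1 := hx _ hmem
    have h2 : aeval x P.det = (P.map (aeval x)).det := by
      rw [← AlgHom.mapMatrix_apply, ← AlgHom.map_det]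
    have h3 : P.map (aeval x) = B0 * M := by
      rw [hP]
      ext a b
      simp only [Matrix.map_apply, Matrix.mul_apply, map_sum, map_mul, symb, Matrix.of_apply,
        hM, Matrix.sum_apply, Matrix.smul_apply, aeval_C, aeval_X, smul_eq_mul, hCB,
        Algebra.algebraMap_self, RingHom.id_apply]
      refine Finset.sum_congr rfl fun i _ => ?_
      congr 1
      exact Finset.sum_congr rfl fun l _ => mul_comm _ _
    rw [h2, h3, hBM, Matrix.det_one] at h1
    exact one_ne_zero h1
  have hX : (X j : MvPolynomial (Fin d) ℂ) ∈ (mulIdeal (symb A)).radical := by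
    rw [← vanishingIdeal_zeroLocus_eq_radical (K := ℂ)]
    intro x hx
    rw [hz x hx]
    simp
  exact hX

theorem symb_map (A : Fin d → Matrix (Fin K) (Fin N) ℝ) :
    symb (fun j => (A j).map (algebraMap ℝ ℂ)) =
      (symb A).map (MvPolynomial.map (algebraMap ℝ ℂ)) := by
  ext1 i j
  simp only [symb, Matrix.of_apply, Matrix.map_apply, map_sum, map_mul, map_C, map_X]

theorem real_power (A : Fin d → Matrix (Fin K) (Fin N) ℝ)
    (hA : ∀ ξ : Fin d → ℂ, ξ ≠ 0 → ∀ v : Fin N → ℂ,
      (∑ j, ξ j • (A j).map (algebraMap ℝ ℂ)) *ᵥ v = 0 → v = 0)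
    (j : Fin d) : ∃ m : ℕ, (X j : MvPolynomial (Fin d) ℝ) ^ m ∈ mulIdeal (symb A) := by
  obtain ⟨m, B, hB⟩ := complex_power (fun j => (A j).map (algebraMap ℝ ℂ)) hA j
  refine ⟨m, Matrix.of fun a b => rep (B a b), ?_⟩
  ext1 a b
  have h1 := congrFun (congrFun hB a) b
  rw [symb_map] at h1
  simp only [Matrix.mul_apply, Matrix.map_apply, Matrix.smul_apply, Matrix.one_apply,
    smul_eq_mul] at h1
  have h2 := congrArg rep h1
  rw [rep_sum] at h2
  simp only [rep_mul_map] at h2
  simp only [Matrix.mul_apply, Matrix.of_apply, Matrix.smul_apply, Matrix.one_apply, smul_eq_mul]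
  rw [h2]
  have h3 : (X j ^ m * if a = b then 1 else 0 : MvPolynomial (Fin d) ℂ) =
      MvPolynomial.map (algebraMap ℝ ℂ) (X j ^ m * if a = b then 1 else 0) := by
    split_ifs <;> simp
  rw [h3, rep_map]

theorem hc_mul {p q : MvPolynomial (Fin d) ℝ} (hq : q.IsHomogeneous 1) (n : ℕ) :
    homogeneousComponent (n + 1) (p * q) = homogeneousComponent n p * q := by
  conv_lhs => rw [← sum_homogeneousComponent p, Finset.sum_mul, map_sum]
  have h1 : ∀ i ∈ Finset.range (p.totalDegree + 1),
      homogeneousComponent (n + 1) (homogeneousComponent i p * q) =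
        if n = i then homogeneousComponent n p * q else 0 := by
    intro i _
    have h2 : (homogeneousComponent i p * q).IsHomogeneous (i + 1) :=
      (homogeneousComponent_isHomogeneous i p).mul hq
    rw [homogeneousComponent_of_mem h2]
    by_cases h : n = i
    · subst h; simp
    · rw [if_neg (by omega), if_neg h]
  rw [Finset.sum_congr rfl h1, Finset.sum_ite_eq]
  split_ifs with h
  · rfl
  · rw [Finset.mem_range, not_lt] at h
    rw [homogeneousComponent_eq_zero n p (by omega), zero_mul]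

theorem symb_homog (A : Fin d → Matrix (Fin K) (Fin N) ℝ) (i : Fin K) (j : Fin N) :
    (symb A i j).IsHomogeneous 1 := by
  unfold symb
  simp only [Matrix.of_apply]
  refine IsHomogeneous.sum _ _ _ fun l _ => ?_
  have := (isHomogeneous_C (Fin d) (A l i j)).mul (isHomogeneous_X ℝ l)
  simpa using this

/-- Nullstellensatz step: all monomials of some degree `k` are multipliers. -/
theorem main (A : Fin d → Matrix (Fin K) (Fin N) ℝ)
    (hA : ∀ ξ : Fin d → ℂ, ξ ≠ 0 → ∀ v : Fin N → ℂ,
      (∑ j, ξ j • (A j).map (algebraMap ℝ ℂ)) *ᵥ v = 0 → v = 0) :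
    ∃ k : ℕ, 1 ≤ k ∧ ∀ α : Fin d →₀ ℕ, α.degree = k →
      ∃ B : Matrix (Fin N) (Fin K) (MvPolynomial (Fin d) ℝ),
        (∀ i j, (B i j).IsHomogeneous (k - 1)) ∧
        B * symb A = (monomial α (1 : ℝ)) • (1 : Matrix (Fin N) (Fin N) _) := by
  choose m hm using real_power A hA
  set k : ℕ := ∑ j, m j + 1 with hk
  refine ⟨k, by omega, fun α hα => ?_⟩
  -- pigeonhole
  obtain ⟨j, hj⟩ : ∃ j, m j ≤ α j := by
    by_contra hcon
    push Not at hcon
    have h1 : α.degree ≤ ∑ j, m j := by
      rw [Finsupp.degree_eq_sum]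
      exact Finset.sum_le_sum fun j _ => (hcon j).le
    omega
  obtain ⟨B, hB⟩ : monomial α (1 : ℝ) ∈ mulIdeal (symb A) := by
    have h2 : monomial α (1 : ℝ) =
        monomial (α - Finsupp.single j (m j)) 1 * (X j : MvPolynomial (Fin d) ℝ) ^ m j := by
      rw [X_pow_eq_monomial, monomial_mul, one_mul]
      congr 1
      have h3 : Finsupp.single j (m j) ≤ α := by
        rw [Finsupp.single_le_iff]
        exact hj
      rw [tsub_add_cancel_of_le h3]
    rw [h2]
    exact Ideal.mul_mem_left _ _ (hm j)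
  refine ⟨Matrix.of fun a b => homogeneousComponent (k - 1) (B a b),
    fun a b => homogeneousComponent_isHomogeneous _ _, ?_⟩
  ext1 a b
  have h1 := congrFun (congrFun hB a) b
  simp only [Matrix.mul_apply, Matrix.smul_apply, Matrix.one_apply, smul_eq_mul] at h1
  simp only [Matrix.mul_apply, Matrix.of_apply, Matrix.smul_apply, Matrix.one_apply, smul_eq_mul]
  have h2 := congrArg (homogeneousComponent (k - 1 + 1)) h1
  rw [map_sum] at h2
  have h3 : ∀ i ∈ Finset.univ, homogeneousComponent (k - 1 + 1) (B a i * symb A i b) =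
      homogeneousComponent (k - 1) (B a i) * symb A i b := fun i _ =>
    hc_mul (symb_homog A i b) (k - 1)
  rw [Finset.sum_congr rfl h3] at h2
  rw [h2]
  have h4 : (monomial α (1 : ℝ) * if a = b then 1 else 0).IsHomogeneous k := by
    split_ifs
    · rw [mul_one]
      exact isHomogeneous_monomial _ hα
    · rw [mul_zero]; exact isHomogeneous_zero _ _ _
  have h5 : k - 1 + 1 = k := by omega
  rw [h5, homogeneousComponent_of_mem h4, if_pos rfl]

end NSAlg

end TrI
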